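import Mathlib

namespace Pool.Agent.Results.MP_4c291d_al.Exact

open Equiv

/-- `G ≤ S_n` is Galois closed over a `k`-element set: it is the invariance group of some set `F`
of functions `k^n → k`. -/
def GaloisClosed (n k : ℕ) (G : Subgroup (Perm (Fin n))) : Prop :=
  ∃ F : Set ((Fin n → Fin k) → Fin k),
    ∀ σ : Perm (Fin n), σ ∈ G ↔ ∀ f ∈ F, ∀ a : Fin n → Fin k, f (fun i => a (σ i)) = f a

/-- `G ≤ S_n` is `m`-closed: it is the set of permutations preserving every member of some set `R`
of `m`-ary relations on `n`. -/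
def MClosed (n m : ℕ) (G : Subgroup (Perm (Fin n))) : Prop :=
  ∃ R : Set (Set (Fin m → Fin n)),
    ∀ σ : Perm (Fin n), σ ∈ G ↔ ∀ ρ ∈ R, ∀ r ∈ ρ, (fun j => σ (r j)) ∈ ρ

lemma ceil_eq {n k : ℕ} (hn : 2 ≤ n) (hk : 2 ≤ k) : (n + k - 1) / k = (n - 1) / k + 1 := by
  have : n + k - 1 = n - 1 + k := by omega
  rw [this, Nat.add_div_right _ (by omega)]

lemma upper {n k : ℕ} (hn : 2 ≤ n) (hk : 2 ≤ k) (G : Subgroup (Perm (Fin n)))
    (h : GaloisClosed n k G) : MClosed n (n - (n + k - 1) / k) G := by
  classical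
  obtain ⟨F, hF⟩ := h
  refine ⟨{ρ | ∀ g ∈ G, ∀ r ∈ ρ, (fun j => g (r j)) ∈ ρ}, fun σ => ⟨fun hσ ρ hρ r hr => hρ σ hσ r hr,
    fun hσ => ?_⟩⟩
  rw [hF]
  intro f hf a
  obtain ⟨c, -, hc⟩ := Finset.exists_lt_card_fiber_of_mul_lt_card_of_maps_to
    (s := (Finset.univ : Finset (Fin n))) (t := (Finset.univ : Finset (Fin k)))
    (f := fun i => a (σ i)) (n := (n - 1) / k) (fun _ _ => Finset.mem_univ _) (by
      simp only [Finset.card_univ, Fintype.card_fin]
      have := Nat.mul_div_le (n - 1) k
      omega)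
  have hS : (Finset.univ.filter (fun i => ¬ a (σ i) = c)).card ≤ n - (n + k - 1) / k := by
    have := Finset.card_filter_add_card_filter_not (s := (Finset.univ : Finset (Fin n)))
      (fun i => a (σ i) = c)
    simp only [Finset.card_univ, Fintype.card_fin] at this
    rw [ceil_eq hn hk]
    omega
  obtain ⟨T, hST, hT⟩ := Finset.exists_superset_card_eq hS (by simp)
  have key := hσ {x | ∃ g ∈ G, x = fun j => g (T.orderEmbOfFin hT j)} (by
    rintro g hg x ⟨g', hg', rfl⟩
    exact ⟨g * g', G.mul_mem hg hg', rfl⟩) (fun j => T.orderEmbOfFin hT j) ⟨1, G.one_mem, rfl⟩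
  obtain ⟨g, hg, he⟩ := key
  have hag : ∀ i, a (σ i) ≠ c → σ i = g i := by
    intro i hi
    have h1 : i ∈ T := hST (by simpa using hi)
    have h2 : i ∈ Set.range (T.orderEmbOfFin hT) := by
      rw [Finset.range_orderEmbOfFin]; exact h1
    obtain ⟨j, rfl⟩ := h2
    exact congrFun he j
  have hfin : (fun i => a (σ i)) = fun i => a (g i) := by
    funext i
    by_cases hi : a (σ i) = c
    · by_contra hne
      have h1 : a (σ (σ.symm (g i))) ≠ c := by
        rw [Equiv.apply_symm_apply]; exact fun h => hne (hi.trans h.symm)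
      have h2 := hag _ h1
      rw [Equiv.apply_symm_apply] at h2
      have h3 : i = σ.symm (g i) := g.injective h2
      rw [← h3] at h1
      exact h1 hi
    · rw [hag i hi]
  rw [hfin]
  exact (hF g).1 hg f hf a

def GG (n k : ℕ) : Subgroup (Perm (Fin n)) where
  carrier := {σ | (∀ i, (σ i).val / k = i.val / k) ∧ Perm.sign σ = 1}
  mul_mem' := by
    rintro a b ⟨ha, ha'⟩ ⟨hb, hb'⟩
    exact ⟨fun i => by rw [Perm.mul_apply, ha, hb], by rw [map_mul, ha', hb', mul_one]⟩
  one_mem' := ⟨fun _ => rfl, map_one _⟩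
  inv_mem' := by
    rintro a ⟨ha, ha'⟩
    refine ⟨fun i => ?_, by rw [map_inv, ha', inv_one]⟩
    have := ha (a⁻¹ i)
    have h2 : a (a⁻¹ i) = i := by simp
    rw [h2] at this
    exact this.symm

lemma closedGG {n k : ℕ} (hk : 2 ≤ k) : GaloisClosed n k (GG n k) := by
  classical
  refine ⟨{f | ∀ g ∈ GG n k, ∀ a, f (fun i => a (g i)) = f a}, fun σ =>
    ⟨fun hσ f hf a => hf σ hσ a, fun hσ => ?_⟩⟩
  let z : Fin k := ⟨0, by omega⟩
  let o : Fin k := ⟨1, by omega⟩
  have hzo : z ≠ o := by simp [z, o]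
  have key : ∀ a : Fin n → Fin k, ∃ g ∈ GG n k, (fun i => a (σ i)) = fun i => a (g i) := by
    intro a
    have h := hσ (fun x => if ∃ g ∈ GG n k, x = fun i => a (g i) then o else z) (by
      intro h hh x
      have : (∃ g ∈ GG n k, (fun i => x (h i)) = fun i => a (g i)) ↔
          ∃ g ∈ GG n k, x = fun i => a (g i) := by
        constructor
        · rintro ⟨g, hg, he⟩
          refine ⟨g * h⁻¹, (GG n k).mul_mem hg ((GG n k).inv_mem hh), funext fun i => ?_⟩
          have := congrFun he (h⁻¹ i)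
          simpa using this
        · rintro ⟨g, hg, rfl⟩
          exact ⟨g * h, (GG n k).mul_mem hg hh, rfl⟩
      simp only [this]) a
    have h1 : ∃ g ∈ GG n k, a = fun i => a (g i) := ⟨1, (GG n k).one_mem, rfl⟩
    simp only [h1, if_true] at h
    by_contra hne
    rw [if_neg hne] at h
    exact hzo h
  have hb : ∀ i, (σ i).val / k = i.val / k := by
    intro i
    obtain ⟨g, hg, he⟩ := key (fun x => if x.val / k = i.val / k then o else z)
    have := congrFun he i
    simp only [hg.1 i, if_true] at this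
    by_contra hne
    rw [if_neg hne] at this
    exact hzo this
  obtain ⟨g, hg, he⟩ := key (fun x => ⟨x.val % k, Nat.mod_lt _ (by omega)⟩)
  have : σ = g := by
    ext i
    have h1 : (σ i).val % k = (g i).val % k := by simpa using congrFun he i
    have h2 : (σ i).val / k = (g i).val / k := (hb i).trans (hg.1 i).symm
    rw [← Nat.div_add_mod (σ i).val k, ← Nat.div_add_mod (g i).val k, h1, h2]
  rw [this]; exact hg

lemma swap_block {n k : ℕ} {x y : Fin n} (h : x.val / k = y.val / k) (i : Fin n) :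
    (swap x y i).val / k = i.val / k := by
  by_cases h1 : i = x
  · rw [h1, swap_apply_left, h]
  · by_cases h2 : i = y
    · rw [h2, swap_apply_right, h]
    · rw [swap_apply_of_ne_of_ne h1 h2]

lemma notClosed {n k m : ℕ} (hn : 2 ≤ n) (hk : 2 ≤ k) (hm : m < n - (n + k - 1) / k) :
    ¬ MClosed n m (GG n k) := by
  classical
  rintro ⟨R, hR⟩
  let x0 : Fin n := ⟨0, by omega⟩
  let y0 : Fin n := ⟨1, by omega⟩
  have hne : x0 ≠ y0 := by simp [x0, y0]
  have hb : x0.val / k = y0.val / k := by
    show 0 / k = 1 / k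
    rw [Nat.zero_div, Nat.div_eq_of_lt (by omega)]
  have h : swap x0 y0 ∈ GG n k := by
    rw [hR]
    intro ρ hρ r hr
    have hc : (Finset.range ((n + k - 1) / k)).card < (Finset.univ \ Finset.univ.image r).card := by
      have h1 : (Finset.univ.image r).card ≤ m := by
        simpa using Finset.card_image_le (s := Finset.univ) (f := r)
      rw [Finset.card_range, Finset.card_sdiff_of_subset (Finset.subset_univ _)]
      simp only [Finset.card_univ, Fintype.card_fin]
      omega
    obtain ⟨x, hx, y, hy, hxy, he⟩ := Finset.exists_ne_map_eq_of_card_lt_of_maps_to hc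
      (f := fun i : Fin n => i.val / k) (by
        intro i _
        simp only [Finset.coe_range, Set.mem_Iio]
        rw [ceil_eq hn hk]
        have : i.val / k ≤ (n - 1) / k := Nat.div_le_div_right (by omega)
        omega)
    have hg : swap x0 y0 * swap x y ∈ GG n k :=
      ⟨fun i => by rw [Perm.mul_apply, swap_block hb, swap_block he],
        by rw [map_mul, Perm.sign_swap hne, Perm.sign_swap hxy]; simp⟩
    have := (hR _).1 hg ρ hρ r hr
    have h2 : (fun j => (swap x0 y0 * swap x y) (r j)) = fun j => swap x0 y0 (r j) := by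
      funext j
      have hx' : r j ≠ x := fun hh => by simp [← hh] at hx
      have hy' : r j ≠ y := fun hh => by simp [← hh] at hy
      rw [Perm.mul_apply, swap_apply_of_ne_of_ne hx' hy']
    rwa [h2] at this
  have := h.2
  rw [Perm.sign_swap hne] at this
  exact absurd this (by decide)

theorem result (n k : ℕ) (hn : 2 ≤ n) (hk : 2 ≤ k) :
    IsLeast {m : ℕ | 1 ≤ m ∧ ∀ G : Subgroup (Perm (Fin n)), GaloisClosed n k G → MClosed n m G}
      (n - (n + k - 1) / k) := by
  refine ⟨⟨?_, upper hn hk⟩, ?_⟩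
  · rw [ceil_eq hn hk]
    have : (n - 1) / k < n - 1 := Nat.div_lt_self (by omega) (by omega)
    omega
  · rintro m ⟨-, hm⟩
    by_contra hlt
    exact notClosed hn hk (not_le.1 hlt) (hm _ (closedGG hk))

end Pool.Agent.Results.MP_4c291d_al.Exact
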